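import Pool.Agent.H90.CS.Targets
import Pool.Agent.H90.LCL.KIL
import Pool.Agent.H90.LCL.LOW

/-!
# CLA, KI2, BON
-/

set_option autoImplicit false

namespace Pool.Agent.H90.LCS

open Finset Pool.Agent.H90.LC Pool.Agent.H90.CS Pool.Agent.H44.MS

theorem pf_BON : T_BON := by
  intro T A
  induction T with
  | zero => simp
  | succ T ih =>
    rw [sum_Icc_succ_top (by omega), sum_Icc_succ_top (by omega)]
    have e : Icc 1 (T + 1) = insert (T + 1) (Icc 1 T) := by
      ext x
      rw [mem_insert, mem_Icc, mem_Icc]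
      omega
    rw [e, biUnion_insert, Nat.add_sub_cancel]
    have h1 := card_union_add_card_inter (A (T + 1)) ((Icc 1 T).biUnion A)
    have h2 : (A (T + 1) ∩ (Icc 1 T).biUnion A).card ≤
        ∑ s ∈ Icc 1 T, (A (T + 1) ∩ A s).card := by
      rw [inter_biUnion]
      exact card_biUnion_le
    omega

theorem pf_KI2 : T_KI2 := by
  intro y n B h8 h3 x₁ x₂ x₃ he hle
  classical
  set a := x₁.natAbs with ha
  set b := x₂.natAbs with hb
  set x := x₃.natAbs with hx
  have hn : a ^ 2 + b ^ 2 + x ^ 2 = n := by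
    have : ((x₁.natAbs ^ 2 + x₂.natAbs ^ 2 + x₃.natAbs ^ 2 : ℕ) : ℤ) = n := by
      push_cast
      rw [sq_abs, sq_abs, sq_abs]
      exact he
    exact_mod_cast this
  clear_value a b x
  rcases Nat.even_or_odd x with hev | ho
  · exfalso
    obtain ⟨k, hk⟩ := hev
    have hx2 : x ^ 2 % 4 = 0 := by
      rw [hk, Nat.pow_mod]
      have : (k + k) % 4 = 0 ∨ (k + k) % 4 = 2 := by omega
      rcases this with e | e <;> rw [e]
    have ha : a ^ 2 % 4 = 0 ∨ a ^ 2 % 4 = 1 := by
      rw [Nat.pow_mod]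
      have : a % 4 = 0 ∨ a % 4 = 1 ∨ a % 4 = 2 ∨ a % 4 = 3 := by omega
      rcases this with e | e | e | e <;> rw [e] <;> norm_num
    have hb : b ^ 2 % 4 = 0 ∨ b ^ 2 % 4 = 1 := by
      rw [Nat.pow_mod]
      have : b % 4 = 0 ∨ b % 4 = 1 ∨ b % 4 = 2 ∨ b % 4 = 3 := by omega
      rcases this with e | e | e | e <;> rw [e] <;> norm_num
    omega
  · have hx1 : 1 ≤ x := ho.pos
    unfold SV
    rw [mem_filter, mem_Icc]
    refine ⟨⟨hx1, hle⟩, Nat.odd_iff.1 ho, fun p hp hd => ?_⟩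
    by_contra hnd
    have hp' := hp
    unfold P3 at hp'
    obtain ⟨-, hpp, hp3⟩ := mem_filter.1 hp'
    set N := (2 * x - 1) * (2 * x + 1) with hN
    have hN1 : N + 1 = 4 * x ^ 2 := by
      rw [hN]
      obtain ⟨z, rfl⟩ : ∃ z, x = z + 1 := ⟨x - 1, by omega⟩
      have : 2 * (z + 1) - 1 = 2 * z + 1 := by omega
      rw [this]
      ring
    have hdv : p ^ 2 ∣ 4 * (a ^ 2 + b ^ 2) + N := by
      have h7 : (4 * (a ^ 2 + b ^ 2) + N) + 1 ≡ 0 + 1 [MOD p ^ 2] := by
        have e : (4 * (a ^ 2 + b ^ 2) + N) + 1 = 4 * n := by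
          rw [← hn]
          omega
        rw [e]
        exact h3 p hp
      exact (Nat.modEq_zero_iff_dvd).1 (Nat.ModEq.add_right_cancel' _ h7)
    have hcop : Nat.Coprime p 4 := by
      rw [Nat.coprime_comm]
      have : p ≠ 2 := by omega
      have h6 : Nat.Coprime 2 p := (Nat.coprime_primes Nat.prime_two hpp).2 (Ne.symm this)
      have : Nat.Coprime (2 ^ 2) p := Nat.Coprime.pow_left 2 h6
      exact this
    have hm1 : p ^ 1 ∣ a ^ 2 + b ^ 2 := by
      rw [pow_one]
      have h6 : p ∣ 4 * (a ^ 2 + b ^ 2) + N := dvd_trans (Dvd.intro_left (p ^ 1) (by ring)) hdv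
      have h7 : p ∣ 4 * (a ^ 2 + b ^ 2) := (Nat.dvd_add_left hd).1 h6
      exact hcop.dvd_of_dvd_mul_left h7
    have hm2 : ¬ p ^ (1 + 1) ∣ a ^ 2 + b ^ 2 := by
      intro h6
      exact hnd ((Nat.dvd_add_right (Dvd.dvd.mul_left h6 4)).1 hdv)
    obtain ⟨hm0, hfv⟩ := Pool.Agent.H90.LCL.fac_eq hpp hm1 hm2
    have := Pool.Agent.H90.LCL.even_fac rfl hm0 hpp hp3
    rw [hfv] at this
    exact Nat.not_even_one this

theorem pf_CLA : T_CLA := by
  classical
  intro y hy
  have hprime : ∀ p ∈ P3 y, p.Prime ∧ p % 4 = 3 := by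
    intro p hp
    unfold P3 at hp
    exact (mem_filter.1 hp).2
  have hpos : 0 < M2 y := by
    unfold M2
    exact Nat.mul_pos (by norm_num) (prod_pos fun p hp => pow_pos (hprime p hp).1.pos _)
  have hd3 : ∀ p ∈ P3 y, p ^ 2 ∣ M2 y := by
    intro p hp
    unfold M2
    exact Dvd.dvd.mul_left (dvd_prod_of_mem (fun p => p ^ 2) hp) _
  have h8 : 8 ∣ M2 y := by
    unfold M2
    exact Dvd.intro _ rfl
  refine ⟨?_, hpos, ?_⟩
  · have h2 : 2 ∣ M2 y := dvd_trans (by norm_num) h8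
    have h3' : 3 ∣ M2 y := dvd_trans (dvd_pow_self 3 (by norm_num))
      (hd3 3 (Pool.Agent.H90.LCL.three_mem hy))
    have : (2 * 3) ∣ M2 y :=
      Nat.Coprime.mul_dvd_of_dvd_of_dvd (by norm_num) h2 h3'
    exact this
  · -- the residues
    have hinv : ∀ i : ℕ, ∃ b : ℕ, i.Prime → i ≠ 2 → 4 * b ≡ 1 [MOD i ^ 2] := by
      intro i
      by_cases hi : i.Prime ∧ i ≠ 2
      · have hk : 1 < i ^ 2 := Nat.one_lt_pow (by norm_num) hi.1.one_lt
        have hc : Nat.Coprime 4 (i ^ 2) := by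
          refine Nat.Coprime.pow_right _ ?_
          have : Nat.Coprime 2 i := (Nat.coprime_primes Nat.prime_two hi.1).2 (Ne.symm hi.2)
          exact Nat.Coprime.pow_left 2 this
        obtain ⟨b, hb⟩ := Nat.exists_mul_mod_eq_one_of_coprime hc hk
        refine ⟨b, fun _ _ => ?_⟩
        show 4 * b % _ = 1 % _
        rw [Nat.mod_eq_of_lt hk]
        exact hb.2
      · exact ⟨0, fun h1 h2 => absurd ⟨h1, h2⟩ hi⟩
    choose inv hinv using hinv
    set t : Finset ℕ := insert 2 (P3 y) with ht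
    have hprime' : ∀ i ∈ t, i.Prime := by
      intro i hi
      rw [ht, mem_insert] at hi
      rcases hi with rfl | hi
      · exact Nat.prime_two
      · exact (hprime i hi).1
    obtain ⟨a, ha⟩ := Nat.chineseRemainderOfFinset
      (fun i => if i = 2 then 3 else inv i)
      (fun i => i ^ (if i = 2 then 3 else 2)) t (fun i hi => by
        have := (hprime' i hi).pos
        positivity) (by
        intro i hi j hj hij
        exact Nat.Coprime.pow _ _ ((Nat.coprime_primes (hprime' i hi) (hprime' j hj)).2 hij))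
    refine ⟨a, fun n hn => ?_⟩
    have hn3 : n % 8 = 3 := by
      have h2 : (2 : ℕ) ∈ t := by rw [ht]; exact mem_insert_self _ _
      have h := ha 2 h2
      simp only [if_true] at h
      have h3 : n ≡ 3 [MOD 2 ^ 3] := (Nat.ModEq.of_dvd h8 hn).trans h
      exact h3
    have hn4 : ∀ p ∈ P3 y, 4 * n ≡ 1 [MOD p ^ 2] := by
      intro p hp
      have hpt : p ∈ t := by
        rw [ht]
        exact mem_insert_of_mem hp
      have hp_ne : p ≠ 2 := by
        have := (hprime p hp).2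
        rintro rfl
        omega
      have h := ha p hpt
      simp only [if_neg hp_ne] at h
      have h3 : n ≡ inv p [MOD p ^ 2] := (Nat.ModEq.of_dvd (hd3 p hp) hn).trans h
      exact (Nat.ModEq.mul_left 4 h3).trans (hinv p (hprime p hp).1 hp_ne)
    refine ⟨hn3, hn4, fun p hp hpM hsq => ?_⟩
    have hpn : p ∣ n := dvd_trans (Dvd.intro_left (p ^ 1) (by ring)) hsq
    unfold M2 at hpM
    rcases (hp.dvd_mul).1 hpM with h2 | h2
    · have : p = 2 := by
        have h4 : p ∣ 2 ^ 3 := by norm_num; exact h2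
        exact (Nat.prime_dvd_prime_iff_eq hp Nat.prime_two).1 (hp.dvd_of_dvd_pow h4)
      subst this
      omega
    · obtain ⟨q, hq, hpq⟩ := (Prime.dvd_finsetProd_iff hp.prime _).1 h2
      have e : p = q := (Nat.prime_dvd_prime_iff_eq hp (hprime q hq).1).1
        (hp.dvd_of_dvd_pow hpq)
      subst e
      have h5 : 4 * n ≡ 1 [MOD p] := (hn4 p hq).of_dvd (dvd_pow_self p (by norm_num))
      have h6 : p ∣ 4 * n := Dvd.dvd.mul_left hpn 4
      have h7 : p ∣ 1 := (h5.dvd_iff dvd_rfl).1 h6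
      exact hp.one_lt.ne' (Nat.dvd_one.1 h7)

end Pool.Agent.H90.LCS
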