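import Pool.Agent.H90.LCS.Fin
import Pool.Agent.H90.LCS.CLA
import Pool.Agent.H94.LCS.TH1
import Pool.Agent.H34.LCS.REC
import Pool.Agent.H34.LCS.GLO
import Pool.Agent.H60.LCSM.GAP
import Pool.Agent.H60.LCSM.GPR
import Pool.Agent.H60.LCSM.SQT
import Pool.Agent.H60.LCSM.UPB
import Pool.Agent.H41.LCS.HPS
import Pool.Agent.H10.LCS.POS
import Pool.Agent.H10.LCS.TSQ
import Pool.Agent.H30.LCS.SVD
import Pool.Agent.H54.LCS.NEG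
import Pool.Agent.H30.LCL.RAN
import Pool.Agent.H57.LCL.SIV
import Pool.Agent.H19.MS.L1
import Pool.Agent.H19.MS.MC
import Pool.Agent.H19.MS.MER
import Pool.Agent.H66.MS.VV
import Pool.Agent.H50.MS.HR
import Pool.Agent.H84.MS.GV
import Pool.Agent.H81.MS.S2

/-!
# The critical scale: assembly
-/

set_option autoImplicit false

namespace Pool.Agent.H90.LCS

open Finset Pool.Agent.H90.CS Pool.Agent.H44.MS

theorem main : (∃ c C : ℝ, 0 < c ∧ 0 < C ∧ ∀ lam : ℝ, 0 < lam → lam ≤ 1 →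
      ∃ N₀ : ℕ, ∀ N : ℕ, N₀ ≤ N →
      c * lam * N ≤
        (({n | n < N ∧ Adm n ∧ Sm n (lam * √(Real.log n))} : Set ℕ).ncard : ℝ) ∧
      (({n | n < N ∧ Sm n (lam * √(Real.log n))} : Set ℕ).ncard : ℝ) ≤ C * lam * N) ∧
    ∀ lam : ℝ, 0 < lam → ∃ δ : ℝ, 0 < δ ∧ ∃ N₀ : ℕ, ∀ N : ℕ, N₀ ≤ N →
      δ * N ≤
        (({n | n < N ∧ Adm n ∧ ¬ Sm n (lam * √(Real.log n))} : Set ℕ).ncard : ℝ) := by
  have MER : T_MER := Pool.Agent.H19.MS.pf_MER (Pool.Agent.H19.MS.pf_MC Pool.Agent.H19.MS.pf_L1)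
  have VV : T_VV := Pool.Agent.H66.MS.pf_VV MER
  have SIV : Pool.Agent.H90.LC.T_SIV := Pool.Agent.H57.LCL.pf_SIV Pool.Agent.H30.LCL.pf_RAN
  have S2 : T_S2 := Pool.Agent.H81.MS.pf_S2 (Pool.Agent.H84.MS.pf_GV Pool.Agent.H50.MS.pf_HR MER)
  have GLO : T_GLO := Pool.Agent.H34.LCS.pf_GLO (Pool.Agent.H94.LCS.pf_TH1 MER)
    (Pool.Agent.H34.LCS.pf_REC VV)
  have GAP : T_GAP := Pool.Agent.H60.LCSM.pf_GAP SIV VV
  have GPR : T_GPR := Pool.Agent.H60.LCSM.pf_GPR SIV VV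
  have SQT : T_SQT := Pool.Agent.H60.LCSM.pf_SQT GLO GAP
  have UPB : T_UPB := Pool.Agent.H60.LCSM.pf_UPB S2
  have POS : T_POS := Pool.Agent.H10.LCS.pf_POS SQT GPR Pool.Agent.H41.LCS.pf_HPS pf_BON
  have TSQ : T_TSQ := Pool.Agent.H10.LCS.pf_TSQ SIV VV
  have NEG : T_NEG := Pool.Agent.H54.LCS.pf_NEG (Pool.Agent.H30.LCS.pf_SVD VV) TSQ pf_CLA pf_KI2
  exact combine POS UPB NEG

end Pool.Agent.H90.LCS
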