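import Pool.Agent.H90.CS.Targets

/-!
# The critical scale: from the modules to the statement
-/

set_option autoImplicit false

namespace Pool.Agent.H90.LCS

open Finset Pool.Agent.H90.CS

theorem ncard_as (N : ℕ) (lam : ℝ) :
    ({n | n < N ∧ Adm n ∧ Sm n (lam * √(Real.log n))} : Set ℕ).ncard = (AsF N lam).card := by
  classical
  rw [← Set.ncard_coe_finset]
  congr 1
  ext n
  unfold AsF
  rw [mem_coe, mem_filter, mem_range]
  rfl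

theorem ncard_sm (N : ℕ) (lam : ℝ) :
    ({n | n < N ∧ Sm n (lam * √(Real.log n))} : Set ℕ).ncard = (SmF N lam).card := by
  classical
  rw [← Set.ncard_coe_finset]
  congr 1
  ext n
  unfold SmF
  rw [mem_coe, mem_filter, mem_range]
  rfl

theorem ncard_an (N : ℕ) (lam : ℝ) :
    ({n | n < N ∧ Adm n ∧ ¬ Sm n (lam * √(Real.log n))} : Set ℕ).ncard = (AnF N lam).card := by
  classical
  rw [← Set.ncard_coe_finset]
  congr 1
  ext n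
  unfold AnF
  rw [mem_coe, mem_filter, mem_range]
  rfl

theorem combine (hPOS : T_POS) (hUPB : T_UPB) (hNEG : T_NEG) :
    (∃ c C : ℝ, 0 < c ∧ 0 < C ∧ ∀ lam : ℝ, 0 < lam → lam ≤ 1 → ∃ N₀ : ℕ, ∀ N : ℕ, N₀ ≤ N →
      c * lam * N ≤
        (({n | n < N ∧ Adm n ∧ Sm n (lam * √(Real.log n))} : Set ℕ).ncard : ℝ) ∧
      (({n | n < N ∧ Sm n (lam * √(Real.log n))} : Set ℕ).ncard : ℝ) ≤ C * lam * N) ∧
    ∀ lam : ℝ, 0 < lam → ∃ δ : ℝ, 0 < δ ∧ ∃ N₀ : ℕ, ∀ N : ℕ, N₀ ≤ N →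
      δ * N ≤
        (({n | n < N ∧ Adm n ∧ ¬ Sm n (lam * √(Real.log n))} : Set ℕ).ncard : ℝ) := by
  obtain ⟨c, hc, h1⟩ := hPOS
  obtain ⟨C, hC, h2⟩ := hUPB
  refine ⟨⟨c, C, hc, hC, fun lam h0 hl => ?_⟩, fun lam h0 => ?_⟩
  · obtain ⟨N₁, h3⟩ := h1 lam h0 hl
    obtain ⟨N₂, h4⟩ := h2 lam h0
    refine ⟨max N₁ N₂, fun N hN => ?_⟩
    rw [ncard_as, ncard_sm]
    exact ⟨h3 N ((le_max_left _ _).trans hN), h4 N ((le_max_right _ _).trans hN)⟩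
  · obtain ⟨δ, hδ, N₀, h3⟩ := hNEG lam h0
    refine ⟨δ, hδ, N₀, fun N hN => ?_⟩
    rw [ncard_an]
    exact h3 N hN

end Pool.Agent.H90.LCS
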